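import Pool.Agent.W844.DO.Defs

/-! Project DO, part PSI: the Laplace exponent through the integrated tail. -/

set_option autoImplicit false

open MeasureTheory Filter Topology Set
open scoped ENNReal

namespace Pool.Agent.W637.DO

open Pool.Agent.W844.DO

/-- layer cake formula, real form -/
lemma layer {ν : Measure ℝ} {f g H τ : ℝ → ℝ} (hf : Measurable f)
    (hH : ∀ᵐ x ∂ν, 0 ≤ f x ∧ ∫ t in (0:ℝ)..f x, g t = H x)
    (hg : ∀ t, 0 ≤ t → 0 ≤ g t)
    (hgi : ∀ t > 0, IntervalIntegrable g volume 0 t)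
    (hHm : AEStronglyMeasurable H ν)
    (hτ0 : ∀ t, 0 < t → 0 ≤ τ t)
    (hτ : ∀ t, 0 < t → g t ≠ 0 → ν {x | t < f x} = ENNReal.ofReal (τ t))
    (hi : IntegrableOn (fun t => τ t * g t) (Ioi 0)) :
    Integrable H ν ∧ ∫ x, H x ∂ν = ∫ t in Ioi (0:ℝ), τ t * g t := by
  have key := lintegral_comp_eq_lintegral_meas_lt_mul ν (f := f) (g := g)
    (hH.mono fun x hx => hx.1) hf.aemeasurable hgi
    ((ae_restrict_iff' measurableSet_Ioi).mpr
      (Eventually.of_forall fun t ht => hg t (le_of_lt ht)))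
  have h1 : ∫⁻ ω, ENNReal.ofReal (∫ t in (0:ℝ)..f ω, g t) ∂ν = ∫⁻ x, ENNReal.ofReal (H x) ∂ν :=
    lintegral_congr_ae (hH.mono fun x hx => by simp only [hx.2])
  have h2 : ∫⁻ t in Ioi (0:ℝ), ν {a | t < f a} * ENNReal.ofReal (g t)
      = ∫⁻ t in Ioi (0:ℝ), ENNReal.ofReal (τ t * g t) := by
    refine setLIntegral_congr_fun measurableSet_Ioi fun t ht => ?_
    by_cases h : g t = 0
    · simp [h]
    · rw [hτ t ht h, ENNReal.ofReal_mul (hτ0 t ht)]
  rw [h1, h2] at key
  have hH0 : 0 ≤ᵐ[ν] H := by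
    filter_upwards [hH] with x hx
    rw [Pi.zero_apply, ← hx.2]
    exact intervalIntegral.integral_nonneg hx.1 fun u hu => hg u hu.1
  have hfin : ∫⁻ x, ENNReal.ofReal (H x) ∂ν < ⊤ := by
    rw [key]; exact hi.lintegral_lt_top
  refine ⟨⟨hHm, (hasFiniteIntegral_iff_ofReal hH0).mpr hfin⟩, ?_⟩
  rw [integral_eq_lintegral_of_nonneg_ae hH0 hHm, key,
    integral_eq_lintegral_of_nonneg_ae _ hi.aestronglyMeasurable]
  rw [EventuallyLE, ae_restrict_iff' measurableSet_Ioi]
  exact Eventually.of_forall fun t ht => mul_nonneg (hτ0 t ht) (hg t (le_of_lt ht))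

/-! ### the tail -/

lemma tail_lt_top {μ : Measure ℝ} (h : Lev μ) {y : ℝ} (hy : 0 < y) : μ (Iio (-y)) < ⊤ := by
  have hc : ENNReal.ofReal (min 1 (y ^ 2)) ≠ 0 :=
    (ENNReal.ofReal_pos.mpr (lt_min one_pos (by positivity))).ne'
  have h1 : ENNReal.ofReal (min 1 (y ^ 2)) * μ (Iio (-y))
      ≤ ∫⁻ x, ENNReal.ofReal (min 1 (x ^ 2)) ∂μ := by
    calc ENNReal.ofReal (min 1 (y ^ 2)) * μ (Iio (-y))
        = ∫⁻ x in Iio (-y), ENNReal.ofReal (min 1 (y ^ 2)) ∂μ := by rw [setLIntegral_const]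
      _ ≤ ∫⁻ x in Iio (-y), ENNReal.ofReal (min 1 (x ^ 2)) ∂μ := by
          refine setLIntegral_mono' measurableSet_Iio fun x hx => ?_
          refine ENNReal.ofReal_le_ofReal (min_le_min le_rfl ?_)
          have : x < -y := hx
          nlinarith
      _ ≤ _ := setLIntegral_le_lintegral _ _
  exact ENNReal.lt_top_of_mul_ne_top_right (lt_of_le_of_lt h1 h.2).ne hc

lemma tl_nonneg (μ : Measure ℝ) (y : ℝ) : 0 ≤ tl μ y := ENNReal.toReal_nonneg

lemma ofReal_tl {μ : Measure ℝ} (h : Lev μ) {y : ℝ} (hy : 0 < y) :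
    ENNReal.ofReal (tl μ y) = μ (Iio (-y)) := ENNReal.ofReal_toReal (tail_lt_top h hy).ne

lemma tl_meas (μ : Measure ℝ) : Measurable (tl μ) := by
  have : Antitone (fun y : ℝ => μ (Iio (-y))) := fun a b hab =>
    measure_mono (Iio_subset_Iio (by linarith))
  exact this.measurable.ennreal_toReal

lemma tl_anti {μ : Measure ℝ} (h : Lev μ) {a b : ℝ} (ha : 0 < a) (hab : a ≤ b) :
    tl μ b ≤ tl μ a :=
  ENNReal.toReal_mono (tail_lt_top h ha).ne (measure_mono (Iio_subset_Iio (by linarith)))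

lemma tl_int {μ : Measure ℝ} (h : Lev μ) {a : ℝ} (b : ℝ) (ha : 0 < a) :
    IntegrableOn (tl μ) (Ioc a b) := by
  refine Measure.integrableOn_of_bounded (M := tl μ a) (by simp)
    (tl_meas μ).aestronglyMeasurable ?_
  rw [ae_restrict_iff' measurableSet_Ioc]
  refine Eventually.of_forall fun y hy => ?_
  rw [Real.norm_of_nonneg (tl_nonneg μ y)]
  exact tl_anti h ha hy.1.le

/-! ### elementary integrals -/

lemma int_exp1 (β z : ℝ) :
    ∫ t in (0:ℝ)..z, β * (1 - Real.exp (-(β * t))) = Real.exp (-(β * z)) - 1 + β * z := by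
  have hd : ∀ t : ℝ, HasDerivAt (fun t => Real.exp (-(β * t)) + β * t)
      (β * (1 - Real.exp (-(β * t)))) t := by
    intro t
    have h1 : HasDerivAt (fun t : ℝ => -(β * t)) (-(β * 1)) t :=
      ((hasDerivAt_id t).const_mul β).neg
    have h2 := h1.exp.add ((hasDerivAt_id t).const_mul β)
    refine h2.congr_deriv ?_
    ring
  rw [intervalIntegral.integral_eq_sub_of_hasDerivAt (fun t _ => hd t)
    (Continuous.intervalIntegrable (by fun_prop) _ _)]
  simp
  ring

lemma int_exp2 (β a b : ℝ) :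
    ∫ t in a..b, β * Real.exp (-(β * t)) = Real.exp (-(β * a)) - Real.exp (-(β * b)) := by
  have hd : ∀ t : ℝ, HasDerivAt (fun t => -Real.exp (-(β * t)))
      (β * Real.exp (-(β * t))) t := by
    intro t
    have h1 : HasDerivAt (fun t : ℝ => -(β * t)) (-(β * 1)) t :=
      ((hasDerivAt_id t).const_mul β).neg
    refine h1.exp.neg.congr_deriv ?_
    ring
  rw [intervalIntegral.integral_eq_sub_of_hasDerivAt (fun t _ => hd t)
    (Continuous.intervalIntegrable (by fun_prop) _ _)]
  ring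

lemma int_ioi (β a : ℝ) (hβ : 0 < β) :
    ∫ t in Ioi a, β * Real.exp (-(β * t)) = Real.exp (-(β * a)) := by
  have h := integral_exp_mul_Ioi (a := -β) (by linarith) a
  have h2 : ∀ t : ℝ, Real.exp (-(β * t)) = Real.exp (-β * t) := fun t => by ring_nf
  simp only [h2]
  rw [integral_const_mul, h]
  field_simp

lemma intble_ioi (β a : ℝ) (hβ : 0 < β) :
    IntegrableOn (fun t => Real.exp (-(β * t))) (Ioi a) := by
  have h := integrableOn_exp_mul_Ioi (a := -β) (by linarith) a
  have h2 : (fun t : ℝ => Real.exp (-(β * t))) = fun t => Real.exp (-β * t) := by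
    ext t; ring_nf
  rw [h2]; exact h

lemma one_sub_exp {β t : ℝ} (hβ : 0 < β) (ht : 0 ≤ t) :
    0 ≤ β * (1 - Real.exp (-(β * t))) ∧ β * (1 - Real.exp (-(β * t))) ≤ β ^ 2 * t := by
  have h1 : Real.exp (-(β * t)) ≤ 1 := Real.exp_le_one_iff.mpr (by have := mul_nonneg hβ.le ht; linarith)
  have h2 : 1 - β * t ≤ Real.exp (-(β * t)) := by
    have := Real.add_one_le_exp (-(β * t)); linarith
  constructor
  · exact mul_nonneg hβ.le (by linarith)
  · nlinarith

/-! ### part 1 -/

lemma int_tlF {μ : Measure ℝ} {β : ℝ} (hβ : 0 < β)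
    (h3 : IntegrableOn (fun y => y * tl μ y) (Ioc 0 1)) :
    IntegrableOn (fun t => tl μ t * (β * (1 - Real.exp (-(β * t))))) (Ioc 0 1) := by
  refine Integrable.mono' (h3.const_mul (β ^ 2)) ?_ ?_
  · exact ((tl_meas μ).mul (by fun_prop)).aestronglyMeasurable
  · rw [ae_restrict_iff' measurableSet_Ioc]
    refine Eventually.of_forall fun t ht => ?_
    obtain ⟨ha, hb⟩ := one_sub_exp hβ ht.1.le
    have := tl_nonneg μ t
    rw [Real.norm_of_nonneg (mul_nonneg this ha)]
    nlinarith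

lemma part1 {μ : Measure ℝ} (h : Lev μ) {β : ℝ} (hβ : 0 < β)
    (h3 : IntegrableOn (fun y => y * tl μ y) (Ioc 0 1)) :
    Integrable (fun x => Real.exp (-(β * min (-x) 1)) - 1 + β * min (-x) 1) μ ∧
    ∫ x, (Real.exp (-(β * min (-x) 1)) - 1 + β * min (-x) 1) ∂μ =
      ∫ t in Ioc (0:ℝ) 1, tl μ t * (β * (1 - Real.exp (-(β * t)))) := by
  set F : ℝ → ℝ := fun t => β * (1 - Real.exp (-(β * t))) with hF
  have hFc : Continuous F := by fun_prop
  have hneg : ∀ᵐ x ∂μ, x < 0 := by
    rw [ae_iff]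
    have : {x : ℝ | ¬ x < 0} = Ici 0 := by ext x; simp
    rw [this]; exact h.1
  have hprod : (fun t => tl μ t * (Iic (1:ℝ)).indicator F t)
      = (Iic (1:ℝ)).indicator (fun t => tl μ t * F t) := by
    ext t; by_cases ht : t ∈ Iic (1:ℝ) <;> simp [ht]
  have hi0 : IntegrableOn (fun t => tl μ t * F t) (Ioc 0 1) := int_tlF hβ h3
  have hset : Iic (1:ℝ) ∩ Ioi 0 = Ioc 0 1 := by rw [inter_comm, Ioi_inter_Iic]
  have hset' : Ioi (0:ℝ) ∩ Iic 1 = Ioc 0 1 := Ioi_inter_Iic
  have hL := layer (ν := μ) (f := fun x => -x) (g := (Iic (1:ℝ)).indicator F)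
    (H := fun x => Real.exp (-(β * min (-x) 1)) - 1 + β * min (-x) 1) (τ := tl μ)
    measurable_neg ?_ ?_ ?_ ?_ (fun t _ => tl_nonneg μ t) ?_ ?_
  · refine ⟨hL.1, ?_⟩
    rw [hL.2, hprod, setIntegral_indicator measurableSet_Iic, hset']
  · filter_upwards [hneg] with x hx
    have hx' : 0 ≤ -x := by linarith
    refine ⟨hx', ?_⟩
    rw [intervalIntegral.integral_of_le hx', setIntegral_indicator measurableSet_Iic,
      Ioc_inter_Iic, ← intervalIntegral.integral_of_le (le_min hx' zero_le_one)]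
    exact int_exp1 β _
  · intro t ht
    exact indicator_apply_nonneg fun _ => (one_sub_exp hβ ht).1
  · intro t ht
    rw [intervalIntegrable_iff_integrableOn_Ioc_of_le ht.le,
      integrableOn_indicator_iff measurableSet_Iic]
    exact (hFc.integrableOn_Ioc (a := 0) (b := t)).mono_set inter_subset_right
  · exact Continuous.aestronglyMeasurable (by fun_prop)
  · intro t ht _
    rw [ofReal_tl h ht]
    congr 1
    ext x; simp only [mem_ofPred_eq, mem_Iio]; constructor <;> intro <;> linarith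
  · rw [hprod, integrableOn_indicator_iff measurableSet_Iic, hset]
    exact hi0

/-! ### part 2 -/

lemma int_tlE {μ : Measure ℝ} (h : Lev μ) {β : ℝ} (hβ : 0 < β) :
    IntegrableOn (fun t => tl μ t * (β * Real.exp (-(β * t)))) (Ioi 1) := by
  refine Integrable.mono' (((intble_ioi β 1 hβ).const_mul β).const_mul (tl μ 1)) ?_ ?_
  · exact ((tl_meas μ).mul (by fun_prop)).aestronglyMeasurable
  · rw [ae_restrict_iff' measurableSet_Ioi]
    refine Eventually.of_forall fun t ht => ?_
    have h1 := tl_nonneg μ t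
    have h2 : 0 ≤ β * Real.exp (-(β * t)) := by positivity
    rw [Real.norm_of_nonneg (mul_nonneg h1 h2)]
    exact mul_le_mul_of_nonneg_right (tl_anti h one_pos (le_of_lt ht)) h2

lemma part2 {μ : Measure ℝ} (h : Lev μ) {β : ℝ} (hβ : 0 < β) :
    Integrable (fun x => Real.exp (-β) - Real.exp (-(β * max (-x) 1))) μ ∧
    ∫ x, (Real.exp (-β) - Real.exp (-(β * max (-x) 1))) ∂μ =
      ∫ t in Ioi (1:ℝ), tl μ t * (β * Real.exp (-(β * t))) := by
  set F : ℝ → ℝ := fun t => β * Real.exp (-(β * t)) with hF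
  have hFc : Continuous F := by fun_prop
  have hneg : ∀ᵐ x ∂μ, x < 0 := by
    rw [ae_iff]
    have : {x : ℝ | ¬ x < 0} = Ici 0 := by ext x; simp
    rw [this]; exact h.1
  have hprod : (fun t => tl μ t * (Ioi (1:ℝ)).indicator F t)
      = (Ioi (1:ℝ)).indicator (fun t => tl μ t * F t) := by
    ext t; by_cases ht : t ∈ Ioi (1:ℝ) <;> simp [ht]
  have hi0 : IntegrableOn (fun t => tl μ t * F t) (Ioi 1) := int_tlE h hβ
  have hset : Ioi (1:ℝ) ∩ Ioi 0 = Ioi 1 := by rw [Ioi_inter_Ioi]; simp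
  have hset' : Ioi (0:ℝ) ∩ Ioi 1 = Ioi 1 := by rw [Ioi_inter_Ioi]; simp
  have hL := layer (ν := μ) (f := fun x => -x) (g := (Ioi (1:ℝ)).indicator F)
    (H := fun x => Real.exp (-β) - Real.exp (-(β * max (-x) 1))) (τ := tl μ)
    measurable_neg ?_ ?_ ?_ ?_ (fun t _ => tl_nonneg μ t) ?_ ?_
  · refine ⟨hL.1, ?_⟩
    rw [hL.2, hprod, setIntegral_indicator measurableSet_Ioi, hset']
  · filter_upwards [hneg] with x hx
    have hx' : 0 ≤ -x := by linarith
    refine ⟨hx', ?_⟩
    rw [intervalIntegral.integral_of_le hx', setIntegral_indicator measurableSet_Ioi,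
      Ioc_inter_Ioi]
    have h01 : (0:ℝ) ⊔ 1 = 1 := by simp
    rw [h01]
    rcases le_total (-x) 1 with h1 | h1
    · rw [Ioc_eq_empty (not_lt.mpr h1), max_eq_right h1]
      simp
    · rw [← intervalIntegral.integral_of_le h1, max_eq_left h1, int_exp2]
      simp
  · intro t ht
    exact indicator_apply_nonneg fun _ => by positivity
  · intro t ht
    rw [intervalIntegrable_iff_integrableOn_Ioc_of_le ht.le,
      integrableOn_indicator_iff measurableSet_Ioi]
    exact (hFc.integrableOn_Ioc (a := 0) (b := t)).mono_set inter_subset_right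
  · exact Continuous.aestronglyMeasurable (by fun_prop)
  · intro t ht _
    rw [ofReal_tl h ht]
    congr 1
    ext x; simp only [mem_ofPred_eq, mem_Iio]; constructor <;> intro <;> linarith
  · rw [hprod, integrableOn_indicator_iff measurableSet_Ioi, hset]
    exact hi0

/-! ### part 3 -/

lemma K0_eq {μ : Measure ℝ} {t : ℝ} (ht : t ≤ 1) : K0 μ t = ∫ y in Ioc t 1, tl μ y := by
  rw [K0, intervalIntegral.integral_of_le ht]

lemma K0_nonneg {μ : Measure ℝ} {t : ℝ} (ht : t ≤ 1) : 0 ≤ K0 μ t := by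
  rw [K0_eq ht]; exact integral_nonneg fun y => tl_nonneg μ y

lemma part3 {μ : Measure ℝ} (h : Lev μ) {β : ℝ} (hβ : 0 < β)
    (h2 : IntegrableOn (K0 μ) (Ioc 0 1)) :
    ∫ t in Ioc (0:ℝ) 1, tl μ t * (β * (1 - Real.exp (-(β * t)))) =
      ∫ t in Ioc (0:ℝ) 1, K0 μ t * (β ^ 2 * Real.exp (-(β * t))) := by
  set F : ℝ → ℝ := fun t => β ^ 2 * Real.exp (-(β * t)) with hF
  have hFc : Continuous F := by fun_prop
  have hprod : (fun t => (Iic (1:ℝ)).indicator (K0 μ) t * F t)
      = (Iic (1:ℝ)).indicator (fun t => K0 μ t * F t) := by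
    ext t; by_cases ht : t ∈ Iic (1:ℝ) <;> simp [ht]
  have hi0 : IntegrableOn (fun t => K0 μ t * F t) (Ioc 0 1) := by
    refine Integrable.mono' (h2.norm.const_mul (β ^ 2)) ?_ ?_
    · exact h2.aestronglyMeasurable.mul hFc.aestronglyMeasurable
    · rw [ae_restrict_iff' measurableSet_Ioc]
      refine Eventually.of_forall fun t ht => ?_
      have h1 : Real.exp (-(β * t)) ≤ 1 :=
        Real.exp_le_one_iff.mpr (by have := mul_nonneg hβ.le ht.1.le; linarith)
      have h3 : 0 ≤ F t := by simp only [hF]; positivity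
      have h4 : F t ≤ β ^ 2 := by
        simp only [hF]; nlinarith [sq_nonneg β]
      rw [norm_mul, Real.norm_of_nonneg h3, mul_comm]
      exact mul_le_mul_of_nonneg_right h4 (norm_nonneg _)
  have hset : Iic (1:ℝ) ∩ Ioi 0 = Ioc 0 1 := by rw [inter_comm, Ioi_inter_Iic]
  have hset' : Ioi (0:ℝ) ∩ Iic 1 = Ioc 0 1 := Ioi_inter_Iic
  set ν : Measure ℝ := (volume.restrict (Ioc (0:ℝ) 1)).withDensity
    (fun y => ENNReal.ofReal (tl μ y)) with hν
  have hac : ν ≪ volume.restrict (Ioc (0:ℝ) 1) := withDensity_absolutelyContinuous _ _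
  have hmem : ∀ᵐ x ∂ν, x ∈ Ioc (0:ℝ) 1 := hac.ae_le (ae_restrict_mem measurableSet_Ioc)
  have hL := layer (ν := ν) (f := fun x => x) (g := F)
    (H := fun x => β * (1 - Real.exp (-(β * x)))) (τ := (Iic (1:ℝ)).indicator (K0 μ))
    measurable_id ?_ ?_ ?_ ?_ ?_ ?_ ?_
  · have h5 := hL.2
    rw [hprod, setIntegral_indicator measurableSet_Iic, hset'] at h5
    rw [← h5, hν, integral_withDensity_eq_integral_toReal_smul (tl_meas μ).ennreal_ofReal
      (Eventually.of_forall fun _ => ENNReal.ofReal_lt_top)]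
    refine integral_congr_ae (Eventually.of_forall fun t => ?_)
    simp only [ENNReal.toReal_ofReal (tl_nonneg μ t), smul_eq_mul]
  · filter_upwards [hmem] with x hx
    refine ⟨hx.1.le, ?_⟩
    have h6 := int_exp2 β 0 x
    have h7 : ∀ t, F t = β * (β * Real.exp (-(β * t))) := fun t => by simp only [hF]; ring
    simp only [h7]
    rw [intervalIntegral.integral_const_mul, h6]
    simp
  · intro t _
    simp only [hF]; positivity
  · intro t _
    exact hFc.intervalIntegrable _ _
  · exact Continuous.aestronglyMeasurable (by fun_prop)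
  · intro t _
    exact indicator_apply_nonneg fun ht => K0_nonneg ht
  · intro t ht _
    have h8 : {x : ℝ | t < x} = Ioi t := rfl
    rw [h8, hν, withDensity_apply _ measurableSet_Ioi, Measure.restrict_restrict measurableSet_Ioi]
    by_cases ht1 : t ≤ 1
    · have h9 : Ioi t ∩ Ioc 0 1 = Ioc t 1 := by
        ext x; simp only [mem_inter_iff, mem_Ioi, mem_Ioc]
        constructor
        · rintro ⟨a, b, c⟩; exact ⟨a, c⟩
        · rintro ⟨a, c⟩; exact ⟨a, ht.trans a, c⟩
      rw [h9, indicator_of_mem (show t ∈ Iic (1:ℝ) from ht1), K0_eq ht1,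
        ofReal_integral_eq_lintegral_ofReal (tl_int h 1 ht)
          (Eventually.of_forall fun y => tl_nonneg μ y)]
    · have h9 : Ioi t ∩ Ioc 0 1 = ∅ := by
        ext x; simp only [mem_inter_iff, mem_Ioi, mem_Ioc, mem_empty_iff_false, iff_false]
        rintro ⟨a, b, c⟩; exact ht1 (a.le.trans c)
      rw [h9, indicator_of_notMem (show t ∉ Iic (1:ℝ) from ht1)]
      simp
  · rw [hprod, integrableOn_indicator_iff measurableSet_Iic, hset]
    exact hi0

/-! ### part 4 -/

lemma part4 {μ : Measure ℝ} (h : Lev μ) {β : ℝ} (hβ : 0 < β)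
    (h1 : ContinuousOn (K0 μ) (Ioi 0)) :
    ∫ y in Ioi (1:ℝ), (β * Real.exp (-(β * y))) * (-(K0 μ y)) =
      ∫ t in Ioi (1:ℝ), tl μ t * Real.exp (-(β * t)) := by
  have hprod : (fun t => Real.exp (-(β * t)) * (Ioi (1:ℝ)).indicator (tl μ) t)
      = (Ioi (1:ℝ)).indicator (fun t => tl μ t * Real.exp (-(β * t))) := by
    ext t; by_cases ht : t ∈ Ioi (1:ℝ)
    · simp [ht, mul_comm]
    · simp [ht]
  have hi0 : IntegrableOn (fun t => tl μ t * Real.exp (-(β * t))) (Ioi 1) := by
    have := (int_tlE h hβ).const_mul β⁻¹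
    refine this.congr (Eventually.of_forall fun t => ?_)
    simp only
    field_simp
  have hset : Ioi (1:ℝ) ∩ Ioi 0 = Ioi 1 := by rw [Ioi_inter_Ioi]; simp
  have hset' : Ioi (0:ℝ) ∩ Ioi 1 = Ioi 1 := by rw [Ioi_inter_Ioi]; simp
  set w : ℝ → ℝ := fun y => β * Real.exp (-(β * y)) with hw
  have hwm : Measurable w := by fun_prop
  have hw0 : ∀ y, 0 ≤ w y := fun y => by simp only [hw]; positivity
  set ν : Measure ℝ := (volume.restrict (Ioi (1:ℝ))).withDensity
    (fun y => ENNReal.ofReal (w y)) with hν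
  have hac : ν ≪ volume.restrict (Ioi (1:ℝ)) := withDensity_absolutelyContinuous _ _
  have hmem : ∀ᵐ x ∂ν, x ∈ Ioi (1:ℝ) := hac.ae_le (ae_restrict_mem measurableSet_Ioi)
  have hL := layer (ν := ν) (f := fun x => x) (g := (Ioi (1:ℝ)).indicator (tl μ))
    (H := fun x => -(K0 μ x)) (τ := fun t => Real.exp (-(β * t)))
    measurable_id ?_ ?_ ?_ ?_ (fun t _ => (Real.exp_pos _).le) ?_ ?_
  · have h5 := hL.2
    rw [hprod, setIntegral_indicator measurableSet_Ioi, hset'] at h5
    rw [← h5, hν, integral_withDensity_eq_integral_toReal_smul hwm.ennreal_ofReal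
      (Eventually.of_forall fun _ => ENNReal.ofReal_lt_top)]
    refine integral_congr_ae (Eventually.of_forall fun t => ?_)
    simp only [ENNReal.toReal_ofReal (hw0 t), smul_eq_mul]
    rfl
  · filter_upwards [hmem] with x hx
    have hx1 : (1:ℝ) < x := hx
    have hx0 : 0 ≤ x := by linarith
    refine ⟨hx0, ?_⟩
    rw [intervalIntegral.integral_of_le hx0, setIntegral_indicator measurableSet_Ioi,
      Ioc_inter_Ioi]
    have h01 : (0:ℝ) ⊔ 1 = 1 := by simp
    rw [h01, ← intervalIntegral.integral_of_le hx1.le, K0, intervalIntegral.integral_symm x 1]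
  · intro t _
    exact indicator_apply_nonneg fun _ => tl_nonneg μ t
  · intro t ht
    rw [intervalIntegrable_iff_integrableOn_Ioc_of_le ht.le,
      integrableOn_indicator_iff measurableSet_Ioi]
    refine (tl_int h t one_pos).mono_set ?_
    rintro x ⟨ha, hb⟩
    exact ⟨ha, hb.2⟩
  · have h6 : AEStronglyMeasurable (K0 μ) (volume.restrict (Ioi (1:ℝ))) :=
      (h1.mono (Ioi_subset_Ioi zero_le_one)).aestronglyMeasurable measurableSet_Ioi
    exact (h6.mono_ac hac).neg
  · intro t ht hgt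
    have ht1 : (1:ℝ) < t := by
      by_contra hcon
      exact hgt (indicator_of_notMem (show t ∉ Ioi (1:ℝ) from hcon) _)
    have h8 : {x : ℝ | t < x} = Ioi t := rfl
    rw [h8, hν, withDensity_apply _ measurableSet_Ioi, Measure.restrict_restrict measurableSet_Ioi,
      Ioi_inter_Ioi, sup_eq_left.mpr ht1.le, ← int_ioi β t hβ,
      ofReal_integral_eq_lintegral_ofReal ((intble_ioi β t hβ).const_mul β)
          (Eventually.of_forall fun y => hw0 y)]
  · rw [hprod, integrableOn_indicator_iff measurableSet_Ioi, hset]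
    exact hi0

/-! ### integrability -/

lemma intble_K0 {μ : Measure ℝ} {β : ℝ} (hβ : 0 < β)
    (h1 : ContinuousOn (K0 μ) (Ioi 0)) (h2 : IntegrableOn (K0 μ) (Ioc 0 1))
    (h4 : ∀ x, 1 ≤ x → |K0 μ x| ≤ tl μ 1 * x) :
    IntegrableOn (fun x => Real.exp (-(β * x)) * K0 μ x) (Ioc 0 1) ∧
    IntegrableOn (fun x => Real.exp (-(β * x)) * K0 μ x) (Ioi 1) := by
  have hec : Continuous (fun x : ℝ => Real.exp (-(β * x))) := by fun_prop
  constructor
  · refine Integrable.mono' h2.norm ?_ ?_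
    · exact hec.aestronglyMeasurable.mul h2.aestronglyMeasurable
    · rw [ae_restrict_iff' measurableSet_Ioc]
      refine Eventually.of_forall fun t ht => ?_
      have h1 : Real.exp (-(β * t)) ≤ 1 :=
        Real.exp_le_one_iff.mpr (by have := mul_nonneg hβ.le ht.1.le; linarith)
      rw [norm_mul, Real.norm_of_nonneg (Real.exp_pos _).le]
      calc Real.exp (-(β * t)) * ‖K0 μ t‖ ≤ 1 * ‖K0 μ t‖ :=
            mul_le_mul_of_nonneg_right h1 (norm_nonneg _)
        _ = ‖K0 μ t‖ := one_mul _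
  · refine Integrable.mono' ((intble_ioi (β / 2) 1 (by positivity)).const_mul
      (tl μ 1 * (2 / β))) ?_ ?_
    · exact hec.aestronglyMeasurable.mul
        ((h1.mono (Ioi_subset_Ioi zero_le_one)).aestronglyMeasurable measurableSet_Ioi)
    · rw [ae_restrict_iff' measurableSet_Ioi]
      refine Eventually.of_forall fun t ht => ?_
      have ht1 : (1:ℝ) ≤ t := le_of_lt ht
      rw [norm_mul, Real.norm_of_nonneg (Real.exp_pos _).le, Real.norm_eq_abs]
      have h5 := h4 t ht1
      have h6 : t * Real.exp (-(β * t)) ≤ 2 / β * Real.exp (-(β / 2 * t)) := by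
        have h7 : β / 2 * t ≤ Real.exp (β / 2 * t) := by
          have := Real.add_one_le_exp (β / 2 * t); linarith
        have h8 : Real.exp (-(β * t)) = Real.exp (-(β / 2 * t)) * Real.exp (-(β / 2 * t)) := by
          rw [← Real.exp_add]; ring_nf
        have h9 : Real.exp (-(β / 2 * t)) * Real.exp (β / 2 * t) = 1 := by
          rw [← Real.exp_add]; simp
        have h10 := Real.exp_pos (-(β / 2 * t))
        have h11 : t * Real.exp (-(β / 2 * t)) ≤ 2 / β := by
          rw [le_div_iff₀ hβ]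
          have := mul_le_mul_of_nonneg_left h7 h10.le
          rw [h9] at this
          nlinarith
        rw [h8]
        nlinarith
      have h12 := tl_nonneg μ 1
      have h13 := Real.exp_pos (-(β * t))
      calc Real.exp (-(β * t)) * |K0 μ t| ≤ Real.exp (-(β * t)) * (tl μ 1 * t) :=
            mul_le_mul_of_nonneg_left h5 h13.le
        _ = tl μ 1 * (t * Real.exp (-(β * t))) := by ring
        _ ≤ tl μ 1 * (2 / β * Real.exp (-(β / 2 * t))) := mul_le_mul_of_nonneg_left h6 h12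
        _ = tl μ 1 * (2 / β) * Real.exp (-(β / 2 * t)) := by ring

/-! ### the statement -/

theorem psi (hK : S_K) : S_PSI := by
  intro μ h β hβ
  obtain ⟨h1, h2, h3, h4, -, -, -⟩ := hK μ h
  obtain ⟨hi1, hi2⟩ := intble_K0 hβ h1 h2 h4
  have hU : Ioc (0:ℝ) 1 ∪ Ioi 1 = Ioi 0 := Ioc_union_Ioi_eq_Ioi zero_le_one
  have hInt : IntegrableOn (fun x => Real.exp (-(β * x)) * K0 μ x) (Ioi 0) := by
    rw [← hU]; exact hi1.union hi2
  refine ⟨hInt, ?_⟩
  obtain ⟨p1i, p1⟩ := part1 h hβ h3
  obtain ⟨p2i, p2⟩ := part2 h hβ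
  have p3 := part3 h hβ h2
  have p4 := part4 h hβ h1
  have hneg : ∀ᵐ x ∂μ, x < 0 := by
    rw [ae_iff]
    have : {x : ℝ | ¬ x < 0} = Ici 0 := by ext x; simp
    rw [this]; exact h.1
  have hfin : μ (Iic (-1)) < ⊤ := by
    refine lt_of_le_of_lt (measure_mono ?_) (tail_lt_top h (y := 1 / 2) (by norm_num))
    intro x hx
    have : x ≤ -1 := hx
    show x < -(1 / 2)
    linarith
  have hind : Integrable ((Iic (-1:ℝ)).indicator (fun _ => β)) μ := by
    rw [integrable_indicator_iff measurableSet_Iic]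
    exact integrableOn_const hfin.ne
  have hψ : ∫ x, (Real.exp (β * x) - 1 - (Set.Ioi (-1 : ℝ)).indicator (fun y => β * y) x) ∂μ =
      ∫ x, ((Real.exp (-(β * min (-x) 1)) - 1 + β * min (-x) 1)
        - (Iic (-1:ℝ)).indicator (fun _ => β) x
        - (Real.exp (-β) - Real.exp (-(β * max (-x) 1)))) ∂μ := by
    refine integral_congr_ae ?_
    filter_upwards [hneg] with x hx
    by_cases hx1 : -1 < x
    · rw [indicator_of_mem (show x ∈ Ioi (-1:ℝ) from hx1),
        indicator_of_notMem (show x ∉ Iic (-1:ℝ) from not_le.mpr hx1),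
        min_eq_left (by linarith), max_eq_right (by linarith)]
      have : -(β * -x) = β * x := by ring
      rw [this, mul_one]
      ring
    · have hx2 : x ≤ -1 := not_lt.mp hx1
      rw [indicator_of_notMem (show x ∉ Ioi (-1:ℝ) from hx1),
        indicator_of_mem (show x ∈ Iic (-1:ℝ) from hx2),
        min_eq_right (by linarith), max_eq_left (by linarith)]
      have : -(β * -x) = β * x := by ring
      rw [this, mul_one]
      ring
  have hs12 : Integrable (fun x => (Real.exp (-(β * min (-x) 1)) - 1 + β * min (-x) 1)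
        - (Iic (-1:ℝ)).indicator (fun _ => β) x) μ := p1i.sub hind
  rw [hψ, integral_sub hs12 p2i, integral_sub p1i hind, p1, p2,
    integral_indicator_const _ measurableSet_Iic, p3, ← hU,
    setIntegral_union (by
      rw [Set.disjoint_left]; intro x hx hx'; exact absurd hx.2 (not_le.mpr hx'))
      measurableSet_Ioi hi1 hi2]
  have e1 : ∫ t in Ioc (0:ℝ) 1, K0 μ t * (β ^ 2 * Real.exp (-(β * t)))
      = β ^ 2 * ∫ x in Ioc (0:ℝ) 1, Real.exp (-(β * x)) * K0 μ x := by
    rw [← integral_const_mul]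
    refine integral_congr_ae (Eventually.of_forall fun t => ?_)
    simp only
    ring
  have e2 : ∫ t in Ioi (1:ℝ), tl μ t * (β * Real.exp (-(β * t)))
      = β * ∫ t in Ioi (1:ℝ), tl μ t * Real.exp (-(β * t)) := by
    rw [← integral_const_mul]
    refine integral_congr_ae (Eventually.of_forall fun t => ?_)
    simp only
    ring
  have e3 : ∫ y in Ioi (1:ℝ), (β * Real.exp (-(β * y))) * (-(K0 μ y))
      = -β * ∫ x in Ioi (1:ℝ), Real.exp (-(β * x)) * K0 μ x := by
    rw [← integral_const_mul]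
    refine integral_congr_ae (Eventually.of_forall fun t => ?_)
    simp only
    ring
  rw [e1, e2, ← p4, e3, smul_eq_mul, measureReal_def]
  ring

end Pool.Agent.W637.DO
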